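import Mathlib

set_option autoImplicit false

open Filter Finset SimpleGraph

namespace Pool.Agent.Results.MP_86b484_co.ThresholdLowerBound

/-- The number of `r`-edge-colourings of `G` in which no copy of `K_k` carries `s` or more distinct
colours. -/
noncomputable def numCol {V : Type*} (G : SimpleGraph V) (r k s : ℕ) : ℕ :=
  Nat.card {c : G.edgeSet → Fin r //
    ∀ S : Finset V, G.IsNClique k S →
      Set.ncard {i : Fin r | ∃ e : G.edgeSet, (∀ v ∈ (e : Sym2 V), v ∈ S) ∧ c e = i} < s}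

lemma cross_le {n k b : ℕ} (hb : 0 < b) (S : Finset (Fin n)) (hS : S.card = k) :
    {e : Sym2 (Fin n) | e ∈ (turanGraph n b).edgeSet ∧ ∀ v ∈ e, v ∈ S}.ncard ≤
      #(turanGraph k b).edgeFinset := by
  classical
  set H : SimpleGraph S := (turanGraph n b).induce (S : Set (Fin n)) with hH
  have hfree : H.CliqueFree (b + 1) := by
    have := turanGraph_cliqueFree (n := n) hb
    exact this.comap ⟨(Embedding.induce _).toCopy⟩
  have h1 := hfree.card_edgeFinset_le
  rw [Fintype.card_coe, hS] at h1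
  rw [card_edgeFinset_turanGraph]
  refine le_trans ?_ h1
  have hsub : {e : Sym2 (Fin n) | e ∈ (turanGraph n b).edgeSet ∧ ∀ v ∈ e, v ∈ S} ⊆
      (fun e : Sym2 S => e.map Subtype.val) '' H.edgeSet := by
    rintro e ⟨he, hv⟩
    induction e using Sym2.ind with
    | _ u v =>
      have hu : u ∈ S := hv u (Sym2.mem_mk_left u v)
      have hv' : v ∈ S := hv v (Sym2.mem_mk_right u v)
      refine ⟨s(⟨u, hu⟩, ⟨v, hv'⟩), ?_, rfl⟩
      rw [SimpleGraph.mem_edgeSet] at he ⊢
      exact he
  refine (Set.ncard_le_ncard hsub (Set.toFinite _)).trans ?_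
  refine (Set.ncard_image_le (Set.toFinite _)).trans ?_
  rw [← coe_edgeFinset, Set.ncard_coe_finset]

/-- admissibility of the template colourings -/
lemma template_ok {n k s r b c : ℕ} (hb : 0 < b) (hs : #(turanGraph k b).edgeFinset + c < s)
    (col : (⊤ : SimpleGraph (Fin n)).edgeSet → Fin r)
    (hcol : ∀ e : (⊤ : SimpleGraph (Fin n)).edgeSet,
      (e : Sym2 (Fin n)) ∉ (turanGraph n b).edgeSet → (col e : ℕ) < c) :
    ∀ S : Finset (Fin n), (⊤ : SimpleGraph (Fin n)).IsNClique k S →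
      Set.ncard {i : Fin r | ∃ e : (⊤ : SimpleGraph (Fin n)).edgeSet,
        (∀ v ∈ (e : Sym2 (Fin n)), v ∈ S) ∧ col e = i} < s := by
  classical
  intro S hS
  have hcross := cross_le hb S hS.card_eq
  set X : Set (Sym2 (Fin n)) := {e | e ∈ (turanGraph n b).edgeSet ∧ ∀ v ∈ e, v ∈ S} with hX
  set Y : Set (⊤ : SimpleGraph (Fin n)).edgeSet := {e | (e : Sym2 (Fin n)) ∈ X} with hY
  have hYX : Y.ncard ≤ X.ncard := by
    apply Set.ncard_le_ncard_of_injOn Subtype.val (fun e he => he)
      (Subtype.val_injective.injOn) (Set.toFinite _)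
  have hB : {i : Fin r | (i : ℕ) < c}.ncard ≤ c := by
    have : {i : Fin r | (i : ℕ) < c}.ncard ≤ (Set.Iio c).ncard := by
      apply Set.ncard_le_ncard_of_injOn Fin.val (fun i hi => hi) Fin.val_injective.injOn
        (Set.finite_Iio c)
    simpa [Set.ncard_eq_toFinset_card'] using this
  have hsub : {i : Fin r | ∃ e : (⊤ : SimpleGraph (Fin n)).edgeSet,
      (∀ v ∈ (e : Sym2 (Fin n)), v ∈ S) ∧ col e = i} ⊆ col '' Y ∪ {i | (i : ℕ) < c} := by
    rintro i ⟨e, he, rfl⟩
    by_cases hcr : (e : Sym2 (Fin n)) ∈ (turanGraph n b).edgeSet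
    · left
      exact ⟨e, ⟨hcr, he⟩, rfl⟩
    · right
      exact hcol e hcr
  calc _ ≤ (col '' Y ∪ {i | (i : ℕ) < c}).ncard := Set.ncard_le_ncard hsub (Set.toFinite _)
    _ ≤ (col '' Y).ncard + {i : Fin r | (i : ℕ) < c}.ncard := Set.ncard_union_le _ _
    _ ≤ Y.ncard + c := Nat.add_le_add (Set.ncard_image_le (Set.toFinite _)) hB
    _ ≤ #(turanGraph k b).edgeFinset + c := by omega
    _ < s := hs

/-- The number of template colourings is a lower bound. -/
lemma numCol_top_ge {n k s r b c : ℕ} (hb : 0 < b) (hcr : c ≤ r)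
    (hs : #(turanGraph k b).edgeFinset + c < s) :
    r ^ #(turanGraph n b).edgeFinset * c ^ (n.choose 2 - #(turanGraph n b).edgeFinset) ≤
      numCol (⊤ : SimpleGraph (Fin n)) r k s := by
  classical
  set P : (⊤ : SimpleGraph (Fin n)).edgeSet → Prop :=
    fun e => (e : Sym2 (Fin n)) ∈ (turanGraph n b).edgeSet with hP
  set A : (⊤ : SimpleGraph (Fin n)).edgeSet → Finset (Fin r) :=
    fun e => if P e then Finset.univ else Finset.univ.filter (fun i => (i : ℕ) < c) with hA
  have hcardc : (Finset.univ.filter (fun i : Fin r => (i : ℕ) < c)).card = c := by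
    rw [Fin.card_filter_val_lt]
    exact min_eq_right hcr
  have hcard : (Fintype.piFinset A).card =
      r ^ #(turanGraph n b).edgeFinset * c ^ (n.choose 2 - #(turanGraph n b).edgeFinset) := by
    rw [Fintype.card_piFinset]
    have h1 : ∀ e, (A e).card = if P e then r else c := by
      intro e
      simp only [hA]
      split_ifs
      · simp
      · exact hcardc
    simp only [h1]
    rw [Finset.prod_ite, Finset.prod_const, Finset.prod_const]
    have h2 : (Finset.univ.filter P).card = #(turanGraph n b).edgeFinset := by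
      apply Finset.card_bij (fun (e : (⊤ : SimpleGraph (Fin n)).edgeSet) _ => (e : Sym2 (Fin n)))
      · intro e he
        rw [Finset.mem_filter] at he
        rw [mem_edgeFinset]
        exact he.2
      · intro e _ e' _ h
        exact Subtype.ext h
      · intro e he
        rw [mem_edgeFinset] at he
        refine ⟨⟨e, edgeSet_mono le_top he⟩, ?_, rfl⟩
        rw [Finset.mem_filter]
        exact ⟨Finset.mem_univ _, he⟩
    have h3 : Fintype.card (⊤ : SimpleGraph (Fin n)).edgeSet = n.choose 2 := by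
      rw [← edgeFinset_card, card_edgeFinset_top_eq_card_choose_two, Fintype.card_fin]
    have h4 := Finset.card_filter_add_card_filter_not
      (s := (Finset.univ : Finset (⊤ : SimpleGraph (Fin n)).edgeSet)) (p := P)
    rw [Finset.card_univ, h3, h2] at h4
    have h5 : (Finset.univ.filter fun e => ¬ P e).card =
        n.choose 2 - #(turanGraph n b).edgeFinset := by omega
    rw [h2, h5]
  rw [← hcard, numCol, Nat.card_eq_fintype_card, Fintype.card_subtype]
  apply Finset.card_le_card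
  intro col hc
  rw [Finset.mem_filter]
  refine ⟨Finset.mem_univ _, template_ok hb hs col ?_⟩
  intro e he
  have h1 := Fintype.mem_piFinset.mp hc e
  simp only [hA, hP, if_neg he, Finset.mem_filter] at h1
  exact h1.2

lemma numCol_le {n r k s : ℕ} (G : SimpleGraph (Fin n)) [DecidableRel G.Adj] :
    numCol G r k s ≤ r ^ #G.edgeFinset := by
  classical
  rw [numCol, Nat.card_eq_fintype_card]
  refine (Fintype.card_subtype_le _).trans ?_
  rw [Fintype.card_fun, Fintype.card_fin, ← edgeFinset_card]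

lemma asymp {k r b c : ℕ} (hb : 1 ≤ b) (hbk : b + 2 ≤ k) (hc : 2 ≤ c) (hcr : c ≤ r)
    (h : r ^ (k - 1 - b) < c ^ (k - 1)) :
    ∀ᶠ n : ℕ in atTop, r ^ #(turanGraph n (k - 1)).edgeFinset <
      r ^ #(turanGraph n b).edgeFinset * c ^ (n.choose 2 - #(turanGraph n b).edgeFinset) := by
  have hr2 : 2 ≤ r := hc.trans hcr
  have hlr : 0 < Real.log r := Real.log_pos (by exact_mod_cast (by omega : 1 < r))
  have hlc : 0 < Real.log c := Real.log_pos (by exact_mod_cast (by omega : 1 < c))
  have hb' : (1 : ℝ) ≤ b := by exact_mod_cast hb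
  have hk' : (b : ℝ) + 2 ≤ k := by exact_mod_cast hbk
  set δ : ℝ := ((k : ℝ) - 1) * Real.log c - ((k : ℝ) - 1 - b) * Real.log r with hδ
  have hδ0 : 0 < δ := by
    have h1 : Real.log ((r : ℝ) ^ (k - 1 - b)) < Real.log ((c : ℝ) ^ (k - 1)) := by
      apply Real.log_lt_log (by positivity)
      exact_mod_cast h
    rw [Real.log_pow, Real.log_pow] at h1
    have e1 : ((k - 1 - b : ℕ) : ℝ) = (k : ℝ) - 1 - b := by
      rw [Nat.cast_sub (by omega), Nat.cast_sub (by omega)]; simp
    have e2 : ((k - 1 : ℕ) : ℝ) = (k : ℝ) - 1 := by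
      rw [Nat.cast_sub (by omega)]; simp
    rw [e1, e2] at h1
    rw [hδ]; linarith
  set K : ℝ := ((k : ℝ) - 1) * (((b : ℝ) - 1) * b ^ 2 + 2 * b) * Real.log r +
    ((k : ℝ) - 1) * b * Real.log c with hK
  filter_upwards [eventually_gt_atTop ⌈K / δ⌉₊, eventually_ge_atTop 1] with n hn hn1
  have hn1' : (1 : ℝ) ≤ n := by exact_mod_cast hn1
  have hKn : K < n * δ := by
    have h1 : K / δ < n := lt_of_le_of_lt (Nat.le_ceil _) (by exact_mod_cast hn)
    rwa [div_lt_iff₀ hδ0] at h1
  set e1 : ℕ := #(turanGraph n (k - 1)).edgeFinset with he1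
  set t : ℕ := #(turanGraph n b).edgeFinset with ht
  have u1 : 2 * ((k : ℝ) - 1) * e1 ≤ ((k : ℝ) - 2) * n ^ 2 := by
    have h1 := mul_card_edgeFinset_turanGraph_le (n := n) (r := k - 1)
    rw [← he1] at h1
    have h2 : ((2 * (k - 1) * e1 : ℕ) : ℝ) ≤ (((k - 1 - 1) * n ^ 2 : ℕ) : ℝ) := by
      exact_mod_cast h1
    push_cast at h2
    rw [Nat.cast_sub (by omega : 1 ≤ k - 1), Nat.cast_sub (by omega : 1 ≤ k)] at h2
    push_cast at h2
    have h3 : (k : ℝ) - 1 - 1 = k - 2 := by ring
    rw [h3] at h2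
    exact h2
  have u2 : 2 * (b : ℝ) * t ≤ ((b : ℝ) - 1) * n ^ 2 := by
    have h1 := mul_card_edgeFinset_turanGraph_le (n := n) (r := b)
    rw [← ht] at h1
    have h2 : ((2 * b * t : ℕ) : ℝ) ≤ (((b - 1) * n ^ 2 : ℕ) : ℝ) := by
      exact_mod_cast h1
    push_cast at h2
    rw [Nat.cast_sub hb] at h2
    push_cast at h2
    exact h2
  have u3 : ((b : ℝ) - 1) * (n ^ 2 - b ^ 2) - 2 * b ≤ 2 * b * t := by
    have h1 := card_edgeFinset_turanGraph (n := n) (r := b)
    rw [← ht] at h1
    have hmod : n % b ≤ b := (Nat.mod_lt _ (by omega)).le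
    have hmodn : n % b ≤ n := Nat.mod_le _ _
    set X : ℕ := (n ^ 2 - (n % b) ^ 2) * (b - 1) with hX
    have h2 : X / (2 * b) ≤ t := by omega
    have h3 : X < 2 * b * (X / (2 * b)) + 2 * b := by
      have h4 := Nat.div_add_mod X (2 * b)
      have h5 := Nat.mod_lt X (show 0 < 2 * b by omega)
      omega
    have h4 : X ≤ 2 * b * t + 2 * b := by
      have := Nat.mul_le_mul_left (2 * b) h2
      omega
    have h5 : (X : ℝ) = ((n : ℝ) ^ 2 - ((n % b : ℕ) : ℝ) ^ 2) * ((b : ℝ) - 1) := by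
      rw [hX]
      rw [Nat.cast_mul, Nat.cast_sub (Nat.pow_le_pow_left hmodn 2), Nat.cast_sub hb]
      push_cast
      ring
    have h6 : (X : ℝ) ≤ 2 * b * t + 2 * b := by exact_mod_cast h4
    have h7 : ((n % b : ℕ) : ℝ) ^ 2 ≤ (b : ℝ) ^ 2 := by
      apply pow_le_pow_left₀ (Nat.cast_nonneg _)
      exact_mod_cast hmod
    have h8 : ((b : ℝ) - 1) * ((n : ℝ) ^ 2 - b ^ 2) ≤
        ((n : ℝ) ^ 2 - ((n % b : ℕ) : ℝ) ^ 2) * ((b : ℝ) - 1) := by
      rw [mul_comm]
      apply mul_le_mul_of_nonneg_right _ (by linarith)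
      linarith
    linarith
  have htle : t ≤ n.choose 2 := by
    have h1 : #(turanGraph n b).edgeFinset ≤ #(⊤ : SimpleGraph (Fin n)).edgeFinset :=
      Finset.card_le_card (edgeFinset_mono le_top)
    rwa [card_edgeFinset_top_eq_card_choose_two, Fintype.card_fin] at h1
  have hchoose : ((n.choose 2 : ℕ) : ℝ) = n * (n - 1) / 2 := Nat.cast_choose_two ℝ n
  have hrpos : (0 : ℝ) < r := by exact_mod_cast (by omega : 0 < r)
  have hcpos : (0 : ℝ) < c := by exact_mod_cast (by omega : 0 < c)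
  have key : (e1 : ℝ) * Real.log r < t * Real.log r + (n * (n - 1) / 2 - t) * Real.log c := by
    have hk1 : (0 : ℝ) < (k : ℝ) - 1 := by linarith
    have hbpos : (0 : ℝ) < b := by linarith
    have v1 : 2 * b * ((k : ℝ) - 1) * ((e1 : ℝ) * Real.log r) ≤
        b * (((k : ℝ) - 2) * n ^ 2) * Real.log r := by
      have := mul_le_mul_of_nonneg_left u1 (show 0 ≤ (b : ℝ) * Real.log r by positivity)
      nlinarith
    have v2 : ((k : ℝ) - 1) * (((b : ℝ) - 1) * (n ^ 2 - b ^ 2) - 2 * b) * Real.log r ≤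
        2 * b * ((k : ℝ) - 1) * (t * Real.log r) := by
      have := mul_le_mul_of_nonneg_left u3 (show 0 ≤ ((k : ℝ) - 1) * Real.log r by positivity)
      nlinarith
    have v3 : ((k : ℝ) - 1) * (n ^ 2 - b * n) * Real.log c ≤
        2 * b * ((k : ℝ) - 1) * ((n * (n - 1) / 2 - t) * Real.log c) := by
      have h1 : (n : ℝ) ^ 2 - b * n ≤ 2 * b * (n * (n - 1) / 2 - t) := by nlinarith
      have := mul_le_mul_of_nonneg_left h1 (show 0 ≤ ((k : ℝ) - 1) * Real.log c by positivity)
      nlinarith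
    have v4 : b * (((k : ℝ) - 2) * n ^ 2) * Real.log r <
        ((k : ℝ) - 1) * (((b : ℝ) - 1) * (n ^ 2 - b ^ 2) - 2 * b) * Real.log r +
        ((k : ℝ) - 1) * (n ^ 2 - b * n) * Real.log c := by
      have h1 : ((k : ℝ) - 1) * (((b : ℝ) - 1) * (n ^ 2 - b ^ 2) - 2 * b) * Real.log r +
        ((k : ℝ) - 1) * (n ^ 2 - b * n) * Real.log c -
        b * (((k : ℝ) - 2) * n ^ 2) * Real.log r =
        n ^ 2 * δ - ((k : ℝ) - 1) * (((b : ℝ) - 1) * b ^ 2 + 2 * b) * Real.log r -
          n * (((k : ℝ) - 1) * b * Real.log c) := by rw [hδ]; ring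
      have h2 : 0 ≤ ((k : ℝ) - 1) * (((b : ℝ) - 1) * b ^ 2 + 2 * b) * Real.log r := by
        have : 0 ≤ (b : ℝ) - 1 := by linarith
        positivity
      have h3 : n * K < n * (n * δ) := mul_lt_mul_of_pos_left hKn (by linarith)
      have h4 : ((k : ℝ) - 1) * (((b : ℝ) - 1) * b ^ 2 + 2 * b) * Real.log r ≤
          n * (((k : ℝ) - 1) * (((b : ℝ) - 1) * b ^ 2 + 2 * b) * Real.log r) := by nlinarith
      have h5 : n * K = n * (((k : ℝ) - 1) * (((b : ℝ) - 1) * b ^ 2 + 2 * b) * Real.log r) +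
          n * (((k : ℝ) - 1) * b * Real.log c) := by rw [hK]; ring
      nlinarith
    have v5 : 2 * b * ((k : ℝ) - 1) * ((e1 : ℝ) * Real.log r) <
        2 * b * ((k : ℝ) - 1) * (t * Real.log r + (n * (n - 1) / 2 - t) * Real.log c) := by
      calc _ ≤ b * (((k : ℝ) - 2) * n ^ 2) * Real.log r := v1
        _ < _ := v4
        _ ≤ 2 * b * ((k : ℝ) - 1) * (t * Real.log r) +
          2 * b * ((k : ℝ) - 1) * ((n * (n - 1) / 2 - t) * Real.log c) := add_le_add v2 v3
        _ = _ := by ring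
    exact lt_of_mul_lt_mul_left v5 (by positivity)
  have hreal : (r : ℝ) ^ e1 < (r : ℝ) ^ t * (c : ℝ) ^ (n.choose 2 - t) := by
    rw [← Real.log_lt_log_iff (by positivity) (by positivity),
      Real.log_mul (by positivity) (by positivity), Real.log_pow, Real.log_pow, Real.log_pow,
      Nat.cast_sub htle, hchoose]
    exact key
  exact_mod_cast hreal

/-- If `r ^ (k - 1 - b) < c ^ (k - 1)`, where `t_b(k) + c < s` and `t_b(k)` is the number of edges of
the Turán graph with `b` parts on `k` vertices, then for all large `n` the complete graph `K_n` has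
more admissible colourings than the Turán graph `T_{k-1}(n)`. -/
theorem result (k s r b c : ℕ) (hb : 1 ≤ b) (hbk : b + 2 ≤ k) (hr : 2 ≤ r) (hc : 2 ≤ c)
    (hs : #(turanGraph k b).edgeFinset + c < s) (h : r ^ (k - 1 - b) < c ^ (k - 1)) :
    ∃ n₀ : ℕ, ∀ n ≥ n₀, numCol (turanGraph n (k - 1)) r k s <
      numCol (⊤ : SimpleGraph (Fin n)) r k s := by
  have main : ∀ c : ℕ, 2 ≤ c → c ≤ r → #(turanGraph k b).edgeFinset + c < s →
      r ^ (k - 1 - b) < c ^ (k - 1) →
      ∃ n₀ : ℕ, ∀ n ≥ n₀, numCol (turanGraph n (k - 1)) r k s <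
        numCol (⊤ : SimpleGraph (Fin n)) r k s := by
    intro c hc hcr hs h
    obtain ⟨n₀, hn₀⟩ := eventually_atTop.mp (asymp hb hbk hc hcr h)
    refine ⟨n₀, fun n hn => ?_⟩
    exact (numCol_le _).trans_lt ((hn₀ n hn).trans_le (numCol_top_ge hb hcr hs))
  rcases le_total c r with hcr | hcr
  · exact main c hc hcr hs h
  · refine main r hr le_rfl (by omega) ?_
    exact Nat.pow_lt_pow_right (by omega) (by omega)

/-- The number of edges of `T_{k-j}(k)` for `2 j ≤ k`: a complete graph minus `j` edges. -/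
lemma turan_small (k j : ℕ) (hj : 2 * j ≤ k) (hj0 : j < k) :
    #(turanGraph k (k - j)).edgeFinset + j ≤ k.choose 2 := by
  have h := card_edgeFinset_turanGraph_add (n := j) (r := k - j)
  rw [show j + (k - j) = k by omega] at h
  have h2 : #(turanGraph j (k - j)).edgeFinset ≤ j.choose 2 := by
    have h1 : #(turanGraph j (k - j)).edgeFinset ≤ #(⊤ : SimpleGraph (Fin j)).edgeFinset :=
      Finset.card_le_card (edgeFinset_mono le_top)
    rwa [card_edgeFinset_top_eq_card_choose_two, Fintype.card_fin] at h1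
  have h3 : k.choose 2 = j.choose 2 + j * (k - j) + (k - j).choose 2 := by
    obtain ⟨m, rfl⟩ : ∃ m, k = j + m := ⟨k - j, by omega⟩
    rw [Nat.add_sub_cancel_left]
    have e : ∀ a : ℕ, 2 * a.choose 2 + a = a * a := by
      intro a
      induction a with
      | zero => rfl
      | succ a ih => rw [Nat.choose_succ_succ' a 1, Nat.choose_one_right]; ring_nf; ring_nf at ih; omega
    have e1 := e (j + m)
    have e2 := e j
    have e3 := e m
    nlinarith
  have h4 : j * (k - j - 1) + j = j * (k - j) := by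
    obtain ⟨m, hm⟩ : ∃ m, k - j = m + 1 := ⟨k - j - 1, by omega⟩
    rw [hm, Nat.add_sub_cancel]; ring
  omega

/-- The threshold for rainbow copies of `K_k` is at least exponential in `k`. -/
theorem exponential (k r : ℕ) (hk : 8 ≤ k) (hr : 2 ≤ r) (h : r ^ 3 < 3 ^ (k - 1)) :
    ∃ n₀ : ℕ, ∀ n ≥ n₀, numCol (turanGraph n (k - 1)) r k (k.choose 2) <
      numCol (⊤ : SimpleGraph (Fin n)) r k (k.choose 2) := by
  apply result k (k.choose 2) r (k - 4) 3 (by omega) (by omega) hr (by norm_num)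
  · have := turan_small k 4 (by omega) (by omega)
    omega
  · rw [show k - 1 - (k - 4) = 3 by omega]
    exact h

end Pool.Agent.Results.MP_86b484_co.ThresholdLowerBound
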